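import Pool.Agent.H28.Z12.CoverDefs

/-!
Kernel evaluation of a cover of the 5 x 5 sign matrices up to row and column permutations that fix
the index 5 (MP_1e71f9_co). A matrix is a number: row `k` is bits `6 k, .., 6 k + 4`.
-/

set_option autoImplicit false

namespace Pool.Agent.H72.Z12

open Pool.Agent.H28.Z12.Cov

/-- One entry of a step: `X` a matrix with `t + 1` rows, `F = (t + 1)!`, `c` the certificate:
`p, q` (10 bits each), flag (1 bit), index. -/
noncomputable def stepE (L nL G n m F X c : Nat) : Bool :=
  band (band (Nat.ble (Nat.succ (Nat.land c (nat_lit 1023))) (nat_lit 120))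
      (Nat.ble (Nat.succ (Nat.land (Nat.shiftRight c (nat_lit 10)) (nat_lit 1023))) F))
    (stepT L nL G n m (act (Nat.land c (nat_lit 1023)) (Nat.land (Nat.shiftRight c (nat_lit 10)) (nat_lit 1023)) X)
      (Nat.land (Nat.shiftRight c (nat_lit 20)) (nat_lit 1)) (Nat.shiftRight c (nat_lit 21)))

/-- All rows `r < n` after the matrix `A` with `t` rows, `s = 6 t`; certificates of 40 bits. -/
noncomputable def stepA (L nL G nG m F s A C : Nat) (n : Nat) : Bool :=
  @Nat.rec (fun _ => Bool) true (fun r ih => band ih
    (stepE L nL G nG m F (Nat.lor A (Nat.shiftLeft r s))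
      (Nat.land (Nat.shiftRight C (Nat.mul (nat_lit 40) r)) (nat_lit 1099511627775)))) n

/-- The matrices `a, .., a + n - 1` of the table `K`. -/
noncomputable def step (K L nL G nG m F s a C : Nat) (n : Nat) : Bool :=
  @Nat.rec (fun _ => Bool) true (fun i ih => band ih
    (stepA L nL G nG m F s (ent K (Nat.add a i)) (Nat.shiftRight C (Nat.mul (nat_lit 1280) i))
      (nat_lit 32))) n

/-- One entry of the last step: `X` a full matrix, `d` the determinant sign, `c` the
certificate: `p, q` (10 bits each), index. -/
noncomputable def finE (G nG X d c : Nat) : Bool :=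
  band (band (Nat.ble (Nat.succ (Nat.land c (nat_lit 1023))) (nat_lit 120))
      (Nat.ble (Nat.succ (Nat.land (Nat.shiftRight c (nat_lit 10)) (nat_lit 1023))) (nat_lit 120)))
    (ngE G nG (Nat.lor (act (Nat.land c (nat_lit 1023)) (Nat.land (Nat.shiftRight c (nat_lit 10)) (nat_lit 1023)) X)
      (Nat.shiftLeft (Nat.xor d (Nat.xor (pr (Nat.land c (nat_lit 1023)))
        (pr (Nat.land (Nat.shiftRight c (nat_lit 10)) (nat_lit 1023))))) (nat_lit 36))) (Nat.shiftRight c (nat_lit 20)))

/-- All last rows and both signs after the matrix `A` with four rows; two certificates of 40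
bits for each row. -/
noncomputable def finA (G nG A C : Nat) (n : Nat) : Bool :=
  @Nat.rec (fun _ => Bool) true (fun r ih => band ih
    (band (finE G nG (Nat.lor A (Nat.shiftLeft r (nat_lit 24))) (nat_lit 0)
        (Nat.land (Nat.shiftRight C (Nat.mul (nat_lit 80) r)) (nat_lit 1099511627775)))
      (finE G nG (Nat.lor A (Nat.shiftLeft r (nat_lit 24))) (nat_lit 1)
        (Nat.land (Nat.shiftRight C (Nat.add (Nat.mul (nat_lit 80) r) (nat_lit 40))) (nat_lit 1099511627775))))) n

/-- The matrices `a, .., a + n - 1` of the table `K`. -/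
noncomputable def fin (K G nG a C : Nat) (n : Nat) : Bool :=
  @Nat.rec (fun _ => Bool) true (fun i ih => band ih
    (finA G nG (ent K (Nat.add a i)) (Nat.shiftRight C (Nat.mul (nat_lit 2560) i)) (nat_lit 32))) n

end Pool.Agent.H72.Z12
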