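import Mathlib
import Pool.Agent.H72.Z12.StarDefs
import Pool.Agent.H26.Z12.SortedRef

/-!
The self dual class: one special row and column. The signs of the minors of order two with the
pivot `(5, 5)` form a 5 x 5 matrix, covered up to the permutations that fix `5` (MP_1e71f9_co).
-/

set_option autoImplicit false

namespace Pool.Agent.H72.Z12

open Pool.Agent.H77.Z12 Pool.Agent.H28.Z12 Pool.Agent.H13.Z12 Pool.Agent.H28.Z12.Cov
  Pool.Agent.H26.Z12

/-! ### Specifications of the kernel functions -/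

/-- A matrix with `t + 1` rows is equivalent to an entry of `L` or satisfies a nogood. -/
def StepOK5 (L nL G nG m F X : ℕ) : Prop :=
  ∃ p < 120, ∃ q < F, (∃ i < nL, act p q X &&& m = ent L i) ∨
    (∃ i, ngM G i &&& m = ngM G i ∧ NgOK G nG (act p q X) i)

/-- A full matrix with a sign satisfies a nogood. -/
def FinOK5 (G nG X d : ℕ) : Prop :=
  ∃ p < 120, ∃ q < 120, ∃ i, NgOK G nG (act p q X ||| ((d ^^^ (pr p ^^^ pr q)) <<< 36)) i

theorem stepE_spec {L nL G nG m F X c : ℕ} (h : stepE L nL G nG m F X c = true) :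
    StepOK5 L nL G nG m F X := by
  rw [stepE, band_iff, band_iff, ble_iff, ble_iff] at h
  obtain ⟨⟨h1, h2⟩, h3⟩ := h
  refine ⟨_, h1, _, h2, ?_⟩
  revert h3
  generalize act _ _ X = Y
  generalize Nat.land (Nat.shiftRight c 20) 1 = f
  generalize Nat.shiftRight c 21 = i
  intro h3
  rw [stepT] at h3
  by_cases hf : f = 0
  · subst hf
    rw [sel_zero, band_iff, ble_iff, beq_iff] at h3
    exact Or.inl ⟨i, h3.1, h3.2⟩
  · rw [sel_ne hf, band_iff, beq_iff] at h3
    exact Or.inr ⟨i, h3.1, ngE_spec h3.2⟩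

theorem stepA_spec {L nL G nG m F s A C : ℕ} : ∀ {n : ℕ}, stepA L nL G nG m F s A C n = true →
    ∀ r < n, StepOK5 L nL G nG m F (A ||| r <<< s)
  | 0, _, r, hr => absurd hr (Nat.not_lt_zero r)
  | n + 1, h, r, hr => by
    have h' : band (stepA L nL G nG m F s A C n)
      (stepE L nL G nG m F (Nat.lor A (Nat.shiftLeft n s))
      (Nat.land (Nat.shiftRight C (Nat.mul 40 n)) 1099511627775)) = true := h
    rw [band_iff] at h'
    rcases Nat.lt_succ_iff_lt_or_eq.1 hr with hr | rfl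
    · exact stepA_spec h'.1 r hr
    · exact stepE_spec h'.2

theorem step_spec {K L nL G nG m F s a C : ℕ} : ∀ {n : ℕ},
    step K L nL G nG m F s a C n = true →
    ∀ i < n, ∀ r < 32, StepOK5 L nL G nG m F (ent K (a + i) ||| r <<< s)
  | 0, _, i, hi => absurd hi (Nat.not_lt_zero i)
  | n + 1, h, i, hi => by
    have h' : band (step K L nL G nG m F s a C n)
      (stepA L nL G nG m F s (ent K (Nat.add a n)) (Nat.shiftRight C (Nat.mul 1280 n)) 32) = true := h
    rw [band_iff] at h'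
    rcases Nat.lt_succ_iff_lt_or_eq.1 hi with hi | rfl
    · exact step_spec h'.1 i hi
    · exact stepA_spec h'.2

theorem finE_spec {G nG X d c : ℕ} (h : finE G nG X d c = true) : FinOK5 G nG X d := by
  rw [finE, band_iff, band_iff, ble_iff, ble_iff] at h
  obtain ⟨⟨h1, h2⟩, h3⟩ := h
  exact ⟨_, h1, _, h2, _, ngE_spec h3⟩

theorem finA_spec {G nG A C : ℕ} : ∀ {n : ℕ}, finA G nG A C n = true →
    ∀ r < n, FinOK5 G nG (A ||| r <<< 24) 0 ∧ FinOK5 G nG (A ||| r <<< 24) 1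
  | 0, _, r, hr => absurd hr (Nat.not_lt_zero r)
  | n + 1, h, r, hr => by
    have h' : band (finA G nG A C n)
      (band (finE G nG (Nat.lor A (Nat.shiftLeft n 24)) 0
        (Nat.land (Nat.shiftRight C (Nat.mul 80 n)) 1099511627775))
      (finE G nG (Nat.lor A (Nat.shiftLeft n 24)) 1
        (Nat.land (Nat.shiftRight C (Nat.add (Nat.mul 80 n) 40)) 1099511627775))) = true := h
    rw [band_iff, band_iff] at h'
    rcases Nat.lt_succ_iff_lt_or_eq.1 hr with hr | rfl
    · exact finA_spec h'.1 r hr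
    · exact ⟨finE_spec h'.2.1, finE_spec h'.2.2⟩

theorem fin_spec {K G nG a C : ℕ} : ∀ {n : ℕ}, fin K G nG a C n = true →
    ∀ i < n, ∀ r < 32, FinOK5 G nG (ent K (a + i) ||| r <<< 24) 0 ∧
      FinOK5 G nG (ent K (a + i) ||| r <<< 24) 1
  | 0, _, i, hi => absurd hi (Nat.not_lt_zero i)
  | n + 1, h, i, hi => by
    have h' : band (fin K G nG a C n)
      (finA G nG (ent K (Nat.add a n)) (Nat.shiftRight C (Nat.mul 2560 n)) 32) = true := h
    rw [band_iff] at h'
    rcases Nat.lt_succ_iff_lt_or_eq.1 hi with hi | rfl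
    · exact fin_spec h'.1 i hi
    · exact finA_spec h'.2

/-! ### The induction -/

/-- Some nogood is satisfied after a permutation that fixes `5`. -/
def Hit5 (G nG : ℕ) (s : St36) : Prop :=
  ∃ ρ γ : Equiv.Perm (Fin 6), ρ 5 = 5 ∧ γ 5 = 5 ∧ ∃ i < nG, Sat (ngM G i) (ngV G i) (actS ρ γ s)

/-- Row and column `5` are zero. -/
def Tr (s : St36) : Prop := ∀ k j : Fin 6, (k = 5 ∨ j = 5) → s.1 k j = false

/-- Up to permutations the first `t` rows are an entry of `K`. -/
def Lay5 (G nG t K n : ℕ) : Prop := ∀ s : St36, Tr s → ¬ Hit5 G nG s →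
  ∃ ρ γ : Equiv.Perm (Fin 6), ρ 5 = 5 ∧ γ 5 = 5 ∧ ∃ i < n, pk t (actS ρ γ s) = ent K i

theorem tr_act {ρ γ : Equiv.Perm (Fin 6)} (hρ : ρ 5 = 5) (hγ : γ 5 = 5) {s : St36} (h : Tr s) :
    Tr (actS ρ γ s) := by
  intro k j hkj
  refine h (γ k) (ρ j) ?_
  rcases hkj with rfl | rfl
  · exact Or.inl hγ
  · exact Or.inr hρ

theorem mul5 {ρ σ : Equiv.Perm (Fin 6)} (h : ρ 5 = 5) (h' : σ 5 = 5) : (ρ * σ) 5 = 5 := by
  rw [Equiv.Perm.mul_apply, h', h]

theorem hit_act {G nG : ℕ} {ρ γ : Equiv.Perm (Fin 6)} (hρ : ρ 5 = 5) (hγ : γ 5 = 5) {s : St36}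
    (h : Hit5 G nG (actS ρ γ s)) : Hit5 G nG s := by
  obtain ⟨ρ', γ', e1, e2, i, hi, h⟩ := h
  rw [act_act] at h
  exact ⟨_, _, mul5 hρ e1, mul5 hγ e2, i, hi, h⟩

theorem lay_zero (G nG : ℕ) : Lay5 G nG 0 0 1 := fun s _ _ =>
  ⟨1, 1, rfl, rfl, 0, one_pos, by
    have h := pk_lt 0 (actS 1 1 s)
    have h2 : ent 0 0 = 0 := by decide
    rw [h2]
    omega⟩

theorem fix5 {q t : ℕ} (ht : t < 6) (hq : q < Nat.factorial t) : permOf q 5 = 5 := by
  have hq' : q < Nat.factorial 5 := lt_of_lt_of_le hq (Nat.factorial_le (by omega))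
  have h120 : Nat.factorial 5 = 120 := rfl
  have hq'' : q < 720 := by omega
  have h := permOf_val hq'' (permOf q |>.symm 5)
  have h2 : ∀ k : Fin 6, (k : ℕ) < 5 → permOf q k ≠ 5 := by
    intro k hk hc
    have h3 := dgt_fix 5 (by norm_num) q hq' k hk
    rw [← permOf_val hq'', hc] at h3
    exact absurd h3 (by decide)
  by_contra hne
  have h4 : (permOf q).symm 5 ≠ 5 := by
    intro hc
    apply hne
    rw [← hc, Equiv.apply_symm_apply, hc]
  have h5 : (((permOf q).symm 5 : Fin 6) : ℕ) < 5 := by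
    have := ((permOf q).symm 5).2
    have h6 : (((permOf q).symm 5 : Fin 6) : ℕ) ≠ 5 := fun h => h4 (Fin.ext h)
    omega
  exact h2 _ h5 (Equiv.apply_symm_apply _ _)

theorem rowN_lt {s : St36} (h : Tr s) (t : Fin 6) : rowN s t < 32 := by
  have e : (32 : ℕ) = 2 ^ 5 := rfl
  rw [e]
  apply Nat.lt_pow_two_of_testBit
  intro i hi
  by_cases h6 : i < 6
  · rw [rowN, Nat.testBit_ofBits_lt _ _ h6]
    exact h _ _ (Or.inr (Fin.ext (by show i = 5; omega)))
  · rw [rowN, Nat.testBit_ofBits_ge _ _ (not_lt.1 h6)]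

theorem lay_step {G nG K n L nL : ℕ} (t : Fin 6) (h5 : (t : ℕ) < 5)
    (h : ∀ i < n, ∀ r < 32, StepOK5 L nL G nG (2 ^ (6 * ((t : ℕ) + 1)) - 1)
      (Nat.factorial ((t : ℕ) + 1)) (ent K i ||| r <<< (6 * (t : ℕ))))
    (hK : Lay5 G nG t K n) : Lay5 G nG ((t : ℕ) + 1) L nL := by
  intro s htr hs
  obtain ⟨ρ, γ, e1, e2, i, hi, he⟩ := hK s htr hs
  have htr' := tr_act e1 e2 htr
  set s' := actS ρ γ s with hs'
  obtain ⟨p, hp, q, hq, hh⟩ := h i hi (rowN s' t) (rowN_lt htr' t)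
  rw [← he, ← pk_succ] at hh
  have ht : (t : ℕ) + 1 < 7 := by omega
  have hp' : p < 720 := by omega
  have f1 : permOf p 5 = 5 := fix5 (t := 5) (by norm_num) hp
  have f2 : permOf q 5 = 5 := fix5 (t := (t : ℕ) + 1) (by omega) hq
  rcases hh with ⟨i', hi', he'⟩ | ⟨i', hm, hi', hv⟩
  · rw [act_pk_eq s' ht hp' hq] at he'
    refine ⟨ρ * permOf p, γ * permOf q, mul5 e1 f1, mul5 e2 f2, i', hi', ?_⟩
    rw [← act_act]
    exact he'
  · exfalso
    apply hs
    refine hit_act (ρ := ρ) (γ := γ) e1 e2 (hit_act (ρ := permOf p) (γ := permOf q) f1 f2 ?_)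
    rw [← hs']
    refine ⟨1, 1, rfl, rfl, i', hi', ?_, ?_⟩
    · intro k j hkj
      have h1 := tb_of_and hm hkj
      rw [Nat.testBit_two_pow_sub_one, decide_eq_true_eq] at h1
      have h2 : (k : ℕ) < (t : ℕ) + 1 := by omega
      have h3 := act_pk s' ht hp' hq k j h2
      show (actS (permOf p) (permOf q) s').1 k j = _
      rw [← h3, ← hv, Nat.testBit_and, hkj, Bool.and_true]
    · intro h36
      have h1 := tb_of_and hm h36
      rw [Nat.testBit_two_pow_sub_one, decide_eq_true_eq] at h1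
      omega

theorem pk6 {s : St36} (h : Tr s) : pk 6 s = pk 5 s := by
  have h1 := pk_succ s 5
  have h2 : rowN s 5 = 0 := by
    apply Nat.eq_of_testBit_eq
    intro i
    rw [Nat.zero_testBit]
    by_cases h6 : i < 6
    · rw [rowN, Nat.testBit_ofBits_lt _ _ h6]
      exact h _ _ (Or.inl rfl)
    · rw [rowN, Nat.testBit_ofBits_ge _ _ (not_lt.1 h6)]
  rw [h2] at h1
  exact h1.trans (by simp)

theorem hit_all {G nG K n : ℕ} (hK : Lay5 G nG 4 K n)
    (h : ∀ i < n, ∀ r < 32, FinOK5 G nG (ent K i ||| r <<< 24) 0 ∧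
      FinOK5 G nG (ent K i ||| r <<< 24) 1) (s : St36) (htr : Tr s) : Hit5 G nG s := by
  by_contra hs
  obtain ⟨ρ, γ, e1, e2, i, hi, he⟩ := hK s htr hs
  have htr' := tr_act e1 e2 htr
  set s' := actS ρ γ s with hs'
  have hd : FinOK5 G nG (ent K i ||| rowN s' 4 <<< 24) s'.2.toNat := by
    have := h i hi (rowN s' 4) (rowN_lt htr' 4)
    cases s'.2
    · exact this.1
    · exact this.2
  have e5 : ent K i ||| rowN s' 4 <<< 24 = pk 6 s' := by
    rw [← he, pk6 htr']
    exact (pk_succ s' 4).symm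
  rw [e5] at hd
  obtain ⟨p, hp5, q, hq5, i', hi', hv⟩ := hd
  have hp : p < 720 := by omega
  have hq : q < 720 := by omega
  have f1 : permOf p 5 = 5 := fix5 (t := 5) (by norm_num) hp5
  have f2 : permOf q 5 = 5 := fix5 (t := 5) (by norm_num) hq5
  apply hs
  refine hit_act (ρ := ρ) (γ := γ) e1 e2 (hit_act (ρ := permOf p) (γ := permOf q) f1 f2 ?_)
  rw [← hs']
  refine ⟨1, 1, rfl, rfl, i', hi', ?_, ?_⟩
  · intro k j hkj
    have h3 := act_pk (t := 6) s' (by norm_num) hp hq k j k.2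
    show (actS (permOf p) (permOf q) s').1 k j = _
    rw [← h3, ← hv, Nat.testBit_and, hkj, Bool.and_true, Nat.testBit_or, Nat.testBit_shiftLeft,
      decide_eq_false (by omega), Bool.false_and, Bool.or_false]
  · intro h36
    have e0 : (actS 1 1 (actS (permOf p) (permOf q) s')).2 =
        xor s'.2 (xor (par (permOf p)) (par (permOf q))) := by
      have h1 : par 1 = false := by
        rw [par, map_one]
        decide
      show xor (xor s'.2 (xor (par (permOf p)) (par (permOf q)))) (xor (par 1) (par 1)) = _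
      rw [h1, Bool.xor_false, Bool.xor_false]
    rw [e0, ← pr_xor _ hp hq, ← hv, Nat.testBit_and, h36, Bool.and_true, Nat.testBit_or,
      act_tb' _ _ _ _ (le_refl _), Bool.false_or, Nat.testBit_shiftLeft, decide_eq_true (le_refl _),
      Bool.true_and, Nat.sub_self]

/-- A step with explicit numbers. -/
theorem lay_step' {G nG K n L nL t m F s : ℕ} (ht : t < 5) (hm : 2 ^ (6 * (t + 1)) - 1 = m)
    (hF : Nat.factorial (t + 1) = F) (hs : 6 * t = s)
    (h : ∀ i < n, ∀ r < 32, StepOK5 L nL G nG m F (ent K i ||| r <<< s))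
    (hK : Lay5 G nG t K n) : Lay5 G nG (t + 1) L nL := by
  subst hm hF hs
  exact lay_step ⟨t, by omega⟩ ht h hK

/-- A range of a step. -/
theorem step_use {K L nL G nG m F s a C n b : ℕ} (h : step K L nL G nG m F s a C n = true)
    (hb : a + n = b) {i : ℕ} (ha : a ≤ i) (hi : i < b) (r : ℕ) (hr : r < 32) :
    StepOK5 L nL G nG m F (ent K i ||| r <<< s) := by
  have h2 := step_spec h (i - a) (by omega) r hr
  have e : a + (i - a) = i := by omega
  rw [e] at h2
  exact h2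

/-- A range of the last step. -/
theorem fin_use {K G nG a C n b : ℕ} (h : fin K G nG a C n = true)
    (hb : a + n = b) {i : ℕ} (ha : a ≤ i) (hi : i < b) (r : ℕ) (hr : r < 32) :
    FinOK5 G nG (ent K i ||| r <<< 24) 0 ∧ FinOK5 G nG (ent K i ||| r <<< 24) 1 := by
  have h2 := fin_spec h (i - a) (by omega) r hr
  have e : a + (i - a) = i := by omega
  rw [e] at h2
  exact h2

/-! ### The excluded class -/

/-- The signs of the special class. -/
def wS : ℕ := 2 ^ 5 + 2 ^ 11 + 2 ^ 17 + 2 ^ 23 + 2 ^ 29 + 2 ^ 30 + 2 ^ 31 + 2 ^ 32 + 2 ^ 33 + 2 ^ 34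

theorem wS_tb : ∀ k j : Fin 6, wS.testBit (6 * (k : ℕ) + j) = xor (decide (k = 5)) (decide (j = 5)) := by
  decide +kernel

/-- The further signs of the nogood `(m, w)`. -/
def starE (m w : ℕ) : List (ℕ × Bool) :=
  (List.finRange 6).flatMap fun k : Fin 6 => (List.finRange 6).flatMap fun j : Fin 6 =>
    if m.testBit (6 * (k : ℕ) + (j : ℕ)) then
      [(mm j 5 k 5, xor (mb j 5) (!(w.testBit (6 * (k : ℕ) + (j : ℕ)))))] else []

attribute [local irreducible] chiN topN sigma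

/-- The signs of the minors with the pivot `(5, 5)`. -/
noncomputable def zst (M : Fin 6 → Fin 6 → ℝ) : St36 :=
  (fun k j => decide (0 < M j k * M 5 5 - M 5 k * M j 5), (stt M).2)

theorem zst_tr (M : Fin 6 → Fin 6 → ℝ) : Tr (zst M) := by
  intro k j h
  show decide (0 < M j k * M 5 5 - M 5 k * M j 5) = false
  rw [decide_eq_false_iff_not, not_lt]
  rcases h with rfl | rfl
  · exact le_of_eq (by ring)
  · exact le_of_eq (by ring)

theorem zst_perm {M : Fin 6 → Fin 6 → ℝ} (hb : Bad (cf M)) {ρ γ : Equiv.Perm (Fin 6)}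
    (hρ : ρ 5 = 5) (hγ : γ 5 = 5) : zst (fun a b => M (ρ a) (γ b)) = actS ρ γ (zst M) := by
  refine Prod.ext ?_ ?_
  · funext k j
    show decide (0 < M (ρ j) (γ k) * M (ρ 5) (γ 5) - M (ρ 5) (γ k) * M (ρ j) (γ 5)) = _
    rw [hρ, hγ]
    rfl
  · show (stt fun a b => M (ρ a) (γ b)).2 = xor (stt M).2 (xor (par ρ) (par γ))
    rw [stt_perm hb]
    rfl

variable {χ T : ℕ → Bool}

theorem chi_mm_neg (h63 : χ 63 = true) {a a' c c' : Fin 6} (ha : a < a') (hc : c < c')
    (h : fsm χ (rm a a') (6 + c) (6 + c') = !(fsm χ (rm a a') a a')) :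
    χ (mm a a' c c') = !(mb a a') := by
  obtain ⟨e0, e1⟩ := rm_facts2 a a' ha
  obtain ⟨e2, e3⟩ := e1 c c' hc
  rw [fsm, fsm, e0, h63, e2, e3] at h
  rw [mb, mm]
  revert h
  generalize χ (rm ↑a ↑a' ||| 2 ^ (6 + (c : ℕ)) ||| 2 ^ (6 + (c' : ℕ))) = x
  generalize ipm (rm ↑a ↑a') ↑a = y
  generalize ipm (rm ↑a ↑a') ↑a' = z
  revert x y z
  decide

theorem mem_starE {m w : ℕ} {e : ℕ × Bool} (he : e ∈ starE m w) :
    ∃ k j : Fin 6, m.testBit (6 * (k : ℕ) + j) = true ∧
      e = (mm j 5 k 5, xor (mb j 5) (!(w.testBit (6 * (k : ℕ) + j)))) := by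
  unfold starE at he
  obtain ⟨k, -, hk⟩ := List.mem_flatMap.1 he
  obtain ⟨j, -, hj⟩ := List.mem_flatMap.1 hk
  by_cases h : m.testBit (6 * (k : ℕ) + j) = true
  · rw [if_pos h] at hj
    exact ⟨k, j, h, List.mem_singleton.1 hj⟩
  · rw [if_neg h] at hj
    exact absurd hj List.not_mem_nil

/-- The mask has the sign of the determinant and no entry in row or column `5`; the determinant
is positive. -/
def okM (m w : ℕ) : Bool := m.testBit 36 && w.testBit 36 &&
  (List.finRange 6).all fun k => (List.finRange 6).all fun j =>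
    !(m.testBit (6 * (k : ℕ) + j)) || (decide (k < 5) && decide (j < 5))

theorem okM_spec {m w : ℕ} (h : okM m w = true) : m.testBit 36 = true ∧ w.testBit 36 = true ∧
    ∀ k j : Fin 6, m.testBit (6 * (k : ℕ) + j) = true → k < 5 ∧ j < 5 := by
  unfold okM at h
  rw [Bool.and_eq_true, Bool.and_eq_true] at h
  refine ⟨h.1.1, h.1.2, fun k j hkj => ?_⟩
  have h2 := List.all_eq_true.1 (List.all_eq_true.1 h.2 k (List.mem_finRange k)) j
    (List.mem_finRange j)
  rw [hkj] at h2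
  simpa using h2

/-- A nogood of the minors is refuted. -/
def StarRef (m w : ℕ) : Prop := okM m w = true ∧ RefX (2 ^ 37 - 1) (wS + 2 ^ 36) (starE m w) 0 0

theorem wS36 : ∀ k j : Fin 6, (wS + 2 ^ 36).testBit (6 * (k : ℕ) + j) =
    wS.testBit (6 * (k : ℕ) + j) := by decide +kernel

theorem full_tb : ∀ k j : Fin 6, (2 ^ 36 - 1 : ℕ).testBit (6 * (k : ℕ) + j) = true := by
  decide +kernel

theorem wS_inv {ρ γ : Equiv.Perm (Fin 6)} (hρ : ρ 5 = 5) (hγ : γ 5 = 5) (k j : Fin 6) :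
    wS.testBit (6 * (γ k : ℕ) + ρ j) = wS.testBit (6 * (k : ℕ) + j) := by
  rw [wS_tb, wS_tb]
  have h1 : (γ k = 5) = (k = 5) := by
    apply propext
    constructor
    · intro h; exact γ.injective (h.trans hγ.symm)
    · rintro rfl; exact hγ
  have h2 : (ρ j = 5) = (j = 5) := by
    apply propext
    constructor
    · intro h; exact ρ.injective (h.trans hρ.symm)
    · rintro rfl; exact hρ
  simp only [h1, h2]

/-- **The special class is excluded.** -/
theorem good_of_star {G nG : ℕ} (hc : ∀ s, Tr s → Hit5 G nG s)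
    (hg : ∀ i < nG, StarRef (ngM G i) (ngV G i)) : Good (2 ^ 36 - 1) wS := by
  intro M hb hM hs
  obtain ⟨ρ, γ, hρ, hγ, i, hi, hsat⟩ := hc (zst M) (zst_tr M)
  obtain ⟨hok, href⟩ := hg i hi
  obtain ⟨h36, w36, hkj⟩ := okM_spec hok
  rw [← zst_perm hb hρ hγ] at hsat
  have hb' := bad_perm hb ρ γ
  have hM' : ∀ i c, 0 < (fun a b => M (ρ a) (γ b)) i c := fun i c => hM _ _
  obtain ⟨h63, hS, hMod⟩ := chart_facts hb' hM'
  refine href _ _ hMod h63 hS ?_ ?_ fun e he => absurd he (Nat.not_lt_zero e)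
  · refine satC_iff.2 ⟨fun k j _ => ?_, fun _ => ?_⟩
    · rw [wS36, stt_perm hb]
      show (stt M).1 (γ k) (ρ j) = _
      rw [hs.1 (γ k) (ρ j) (full_tb _ _)]
      exact wS_inv hρ hγ k j
    · have h2 := hsat.2 h36
      rw [w36] at h2
      exact h2
  · intro e he
    obtain ⟨k, j, hm, rfl⟩ := mem_starE he
    obtain ⟨hk, hj⟩ := hkj k j hm
    have h1 := hsat.1 k j hm
    have h2 := minor_sign hb'.1 hj hk
    show chiN (cf fun a b => M (ρ a) (γ b)) (mm j 5 k 5) = _
    have h3 : decide (0 < (fun a b => M (ρ a) (γ b)) j k * (fun a b => M (ρ a) (γ b)) 5 5 -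
      (fun a b => M (ρ a) (γ b)) 5 k * (fun a b => M (ρ a) (γ b)) j 5) =
        (ngV G i).testBit (6 * (k : ℕ) + j) := h1
    rcases lt_or_gt_of_ne h2.1 with h4 | h4
    · rw [decide_eq_false (not_lt.2 h4.le)] at h3
      rw [← h3]
      have h5 := chi_mm_neg h63 hj hk (h2.2.2 h4)
      have h6 : ((5 : Fin 6) : ℕ) = 5 := rfl
      rw [h6] at h5
      rw [h5]
      cases mb ↑j 5 <;> rfl
    · rw [decide_eq_true h4] at h3
      rw [← h3]
      have h5 := chi_mm h63 hj hk (h2.2.1 h4)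
      have h6 : ((5 : Fin 6) : ℕ) = 5 := rfl
      rw [h6] at h5
      rw [h5]
      cases mb ↑j 5 <;> rfl

end Pool.Agent.H72.Z12
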