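import Mathlib
import Pool.Agent.H72.Z12.Star

/-!
The self dual class from a list of excluded patterns of minors, whatever their proof
(MP_1e71f9_co).
-/

set_option autoImplicit false

namespace Pool.Agent.H72.Z12

open Pool.Agent.H77.Z12 Pool.Agent.H28.Z12 Pool.Agent.H13.Z12 Pool.Agent.H28.Z12.Cov
  Pool.Agent.H26.Z12

attribute [local irreducible] chiN topN sigma

/-- No bad chart of the special class has the pattern `(m, w)` of minors. -/
def NoZ (m w : ℕ) : Prop := ∀ M : Fin 6 → Fin 6 → ℝ, Bad (cf M) → (∀ i c, 0 < M i c) →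
  Sat (2 ^ 36 - 1) wS (stt M) → ¬ Sat m w (zst M)

theorem noZ_of_starRef {m w : ℕ} (h : StarRef m w) : NoZ m w := by
  intro M hb hM hs hsat
  obtain ⟨hok, href⟩ := h
  obtain ⟨h36, w36, hkj⟩ := okM_spec hok
  obtain ⟨h63, hS, hMod⟩ := chart_facts hb hM
  refine href _ _ hMod h63 hS ?_ ?_ fun e he => absurd he (Nat.not_lt_zero e)
  · refine satC_iff.2 ⟨fun k j _ => ?_, fun _ => ?_⟩
    · rw [wS36]
      exact hs.1 k j (full_tb _ _)
    · have h2 := hsat.2 h36
      rw [w36] at h2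
      exact h2
  · intro e he
    obtain ⟨k, j, hm, rfl⟩ := mem_starE he
    obtain ⟨hk, hj⟩ := hkj k j hm
    have h1 := hsat.1 k j hm
    have h2 := minor_sign hb.1 hj hk
    show chiN (cf M) (mm j 5 k 5) = _
    have h3 : decide (0 < M j k * M 5 5 - M 5 k * M j 5) = w.testBit (6 * (k : ℕ) + j) := h1
    rcases lt_or_gt_of_ne h2.1 with h4 | h4
    · rw [decide_eq_false (not_lt.2 h4.le)] at h3
      rw [← h3]
      have h5 := chi_mm_neg h63 hj hk (h2.2.2 h4)
      have h6 : ((5 : Fin 6) : ℕ) = 5 := rfl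
      rw [h6] at h5
      rw [h5]
      cases mb ↑j 5 <;> rfl
    · rw [decide_eq_true h4] at h3
      rw [← h3]
      have h5 := chi_mm h63 hj hk (h2.2.1 h4)
      have h6 : ((5 : Fin 6) : ℕ) = 5 := rfl
      rw [h6] at h5
      rw [h5]
      cases mb ↑j 5 <;> rfl

/-- **The special class is excluded**, from excluded patterns. -/
theorem good_of_noZ {G nG : ℕ} (hc : ∀ s, Tr s → Hit5 G nG s)
    (hg : ∀ i < nG, NoZ (ngM G i) (ngV G i)) : Good (2 ^ 36 - 1) wS := by
  intro M hb hM hs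
  obtain ⟨ρ, γ, hρ, hγ, i, hi, hsat⟩ := hc (zst M) (zst_tr M)
  rw [← zst_perm hb hρ hγ] at hsat
  refine hg i hi _ (bad_perm hb ρ γ) (fun i c => hM _ _) ⟨fun k j _ => ?_, fun h => ?_⟩ hsat
  · rw [stt_perm hb]
    show (stt M).1 (γ k) (ρ j) = _
    rw [hs.1 (γ k) (ρ j) (full_tb _ _)]
    exact wS_inv hρ hγ k j
  · exact absurd h (by decide +kernel)

end Pool.Agent.H72.Z12
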